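import Mathlib.Data.List.Basic

/-!
Kernel computation: the tree of iterated preimages of `-1/2` under `x ↦ x^2 + 1/4` modulo
`1113643` is traversed depth first with an explicit stack. Every stack step pops one vertex and
pushes its two preimages (when the candidate square root is correct).
-/

set_option autoImplicit false

namespace Pool.Agent.Lib_helper76.QG

/-- candidate square root `d^((p+1)/4)` modulo `p = 1113643`,
using `(p+1)/4 = 278411 = (67 * 64 + 62) * 64 + 11`. -/
noncomputable def sqr (d : Nat) : Nat :=
  Nat.mod (Nat.mul (Nat.pow (Nat.mod (Nat.mul (Nat.pow (Nat.mod (Nat.pow d (nat_lit 67))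
    (nat_lit 1113643)) (nat_lit 64)) (Nat.pow d (nat_lit 62))) (nat_lit 1113643)) (nat_lit 64))
    (Nat.pow d (nat_lit 11))) (nat_lit 1113643)

/-- push the two square roots if the candidate `s` is correct; `m + 1` is the target. -/
noncomputable def stepS (T : List Nat) (m : Nat) (s : Nat) : Option (List Nat) :=
  @Nat.rec (fun _ => Option (List Nat)) (some T)
    (fun s' _ => @Bool.rec (fun _ => Option (List Nat)) (some T)
      (some (List.cons (Nat.succ s') (List.cons (Nat.sub (nat_lit 1113642) s') T)))
      (Nat.beq (Nat.mod (Nat.mul (Nat.succ s') (Nat.succ s')) (nat_lit 1113643))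
        (Nat.succ m))) s

/-- process the value `d = y - a`. -/
noncomputable def stepD (T : List Nat) (d : Nat) : Option (List Nat) :=
  @Nat.rec (fun _ => Option (List Nat)) (some (List.cons (nat_lit 0) T))
    (fun m _ => stepS T m (sqr (Nat.succ m))) d

/-- one step of the depth first traversal. -/
noncomputable def step (L : List Nat) : Option (List Nat) :=
  @List.rec Nat (fun _ => Option (List Nat)) none
    (fun y T _ => stepD T (Nat.mod (Nat.add y (nat_lit 835232)) (nat_lit 1113643))) L

/-- `2^k` steps. -/
noncomputable def run (k : Nat) : List Nat → Option (List Nat) :=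
  @Nat.rec (fun _ => List Nat → Option (List Nat)) step
    (fun _ ih L => @Option.rec (List Nat) (fun _ => Option (List Nat)) none (fun L' => ih L')
      (ih L)) k

/-- successive runs of `2^k` steps, `k` in the list. -/
noncomputable def runs (ks : List Nat) : List Nat → Option (List Nat) :=
  @List.rec Nat (fun _ => List Nat → Option (List Nat)) (fun L => some L)
    (fun k _ ih L => @Option.rec (List Nat) (fun _ => Option (List Nat)) none (fun L' => ih L')
      (run k L)) ks

noncomputable def eqL (l : List Nat) : List Nat → Bool :=
  @List.rec Nat (fun _ => List Nat → Bool)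
    (fun l2 => @List.rec Nat (fun _ => Bool) true (fun _ _ _ => false) l2)
    (fun a _ ih l2 => @List.rec Nat (fun _ => Bool) false
      (fun b t _ => @Bool.rec (fun _ => Bool) false (ih t) (Nat.beq a b)) l2) l

noncomputable def eqO (o : Option (List Nat)) (l : List Nat) : Bool :=
  @Option.rec (List Nat) (fun _ => Bool) false (fun l1 => eqL l1 l) o

end Pool.Agent.Lib_helper76.QG
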