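import Pool.Agent.Lib_helper76.QGComp.Base

set_option autoImplicit false

namespace Pool.Agent.Lib_helper76.QG

def L0 : List Nat := [556821]

def L1 : List Nat := [227001, 886642, 756484, 521386, 1071465, 692798, 674622, 26878, 1004946, 543447, 788758, 753615,
  974010, 8544, 222091, 1023912, 821761, 536451, 1051936, 429229, 1057782, 811597, 910962, 602714,
  451276, 475180, 375654, 180261, 682565, 994375, 625300, 802532, 834970, 830857, 276337, 647820,
  391036, 434051, 5513, 510424, 500734, 790640, 79438, 340626, 716454, 403610, 160243, 362885,
  555115, 985608, 698967, 195221, 687137, 221977, 676674, 816122, 24927, 892697, 241221, 143443,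
  609051, 449631, 370900, 117736, 135760, 763376, 572324, 776203, 623810, 863133, 471825, 353950,
  1083176, 603449, 727751, 86956, 11623, 559793, 636153, 266522, 577503, 906400, 1085146, 1001154,
  672585, 654809, 836611, 813553, 1095539, 104237, 826263, 222069, 523289, 463826, 108521, 802516,
  901949, 523560, 76938, 247426, 392752, 1033631, 1037582, 934896, 501481, 580030, 925561, 866403,
  1081902, 77423, 561453, 904884, 706670, 1074604, 255335, 875156, 761359, 272465, 913177, 315743,
  456847, 993234, 800660, 742509, 880507, 712046, 691369, 907673, 1045331, 878569, 388135, 113832,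
  586951, 449294, 48943, 864076, 973447, 854035, 1082285, 674633, 339998, 889967, 294031, 939647,
  612171, 717767, 439031, 814634, 1054120, 346086, 961415, 154792, 301113, 52268, 950179, 401800,
  116921, 282816, 12922, 903598, 14295, 899509, 943567, 101487, 557000, 980331, 595610, 900876,
  626893, 593696, 947247, 598682, 15800, 651264, 337802, 554263, 692757, 774960, 1003386, 742096,
  30092, 205024, 449691, 817549, 335524, 870341, 58281, 90400, 587566, 815448, 700112, 625422,
  887400, 199749, 447712, 1022539, 877695, 360649, 346405, 785565, 636009, 887652, 705343, 16405,
  524716, 968067, 1071843, 901099, 876402, 1060371, 491612, 591813, 483589, 862453, 90583, 435513,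
  243331, 1030695, 979994, 500108, 336723, 677619, 302060, 670217, 673358, 693943, 780963, 844745,
  199889, 659465, 1045152, 480419, 357636, 243641, 668520, 144448, 825776, 602636, 805466, 846658,
  792508, 246469, 865635, 549344, 768395, 91304, 32671, 150413, 422208, 961335, 973724, 515962,
  408938, 748483, 1054237, 581992, 789856, 52240, 1035465, 708332, 706187, 114450, 701698, 147501,
  1056635, 533442, 419707, 691837, 317995, 158483, 410483, 955129, 187740, 214939, 427723, 1103298,
  725935, 646822, 1106003, 560560, 995012, 627662, 255739, 806718, 684402, 778929, 207310, 1109788,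
  838724, 1101795, 981489, 901957, 77274, 1014702, 790388, 162897, 174384, 191534, 76139, 199726,
  1052416, 612041, 518175, 400122, 386010, 468132, 1112121, 746034, 581829, 1049131, 805329, 768847,
  1093600, 24863, 587168, 83676, 635797, 941664, 77189, 300454, 447150, 63309, 806908, 603862]

theorem c1 : eqO (runs [16] L0) L1 = true := by decide +kernel

end Pool.Agent.Lib_helper76.QG
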