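import Pool.Agent.Lib_helper76.QGComp.Base
import Pool.Agent.Lib_helper76.QGComp.C14

set_option autoImplicit false

namespace Pool.Agent.Lib_helper76.QG

def L15 : List Nat := [334127, 980596, 229433, 698520, 1075209, 1079452, 987803, 19449, 677841, 459357, 602851, 1104580,
  1106845, 281791, 1042120, 258002, 472624, 550972, 863104, 418763, 53324, 516835, 827987, 903150,
  932581, 263845, 34494, 369920, 26100, 61105, 1059186, 901692, 101239, 356640, 139948, 59986,
  120963, 943240, 780405, 182333, 1096822, 117871, 683264, 309923, 800139, 640181, 882901, 9212,
  611156, 63994, 468507, 799481, 797506, 41384, 219980, 421523, 936353, 1002378, 302224, 260630,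
  247237, 338047, 479578, 897723, 939384, 939751, 831117, 256581, 884091, 960359, 585006, 218240,
  421456, 620153, 504684, 640478, 264374, 230616, 805102, 831120, 838085, 719900, 453391, 343149,
  77548, 815128, 1938, 552977, 401508, 894562, 520975, 729281, 341282, 12149, 237907, 101657,
  853107, 736264, 819717, 541416, 433350, 4536, 8605, 289645, 13378, 47228, 978177, 407430,
  142269, 49965, 7970, 791983, 89389, 830436, 312886, 201437, 894343, 432299, 535073, 914939,
  417531, 601777, 821886, 1610, 854681, 511048, 1069098, 224632, 464138, 304584, 338648, 109443,
  295448, 880154, 1001533, 1073971, 411014, 744992, 1055159, 993819, 126957, 62254, 752356, 654310,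
  215942, 347564, 123762, 848410, 5610, 1024521, 606224, 1055271, 540393, 162815, 155336, 865217,
  595426, 303735, 71127, 1065252, 23937, 539774, 600388, 164571, 1018951, 200161, 309415, 511050,
  1103346, 603108, 441977, 395699, 13544, 841937, 79266, 271716, 964620, 135766, 333769, 140090,
  244078, 1097433, 301126, 121345, 813953, 263606, 19088, 644749, 184044, 93141, 332911, 401756,
  306951, 866877, 177494, 228651, 639709, 282832, 985341, 189211, 242003, 754950, 1102470, 582544,
  750358, 448651, 350847, 405899, 335524, 870341, 58281, 90400, 587566, 815448, 700112, 625422,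
  887400, 199749, 447712, 1022539, 877695, 360649, 346405, 785565, 636009, 887652, 705343, 16405,
  524716, 968067, 1071843, 901099, 876402, 1060371, 491612, 591813, 483589, 862453, 90583, 435513,
  243331, 1030695, 979994, 500108, 336723, 677619, 302060, 670217, 673358, 693943, 780963, 844745,
  199889, 659465, 1045152, 480419, 357636, 243641, 668520, 144448, 825776, 602636, 805466, 846658,
  792508, 246469, 865635, 549344, 768395, 91304, 32671, 150413, 422208, 961335, 973724, 515962,
  408938, 748483, 1054237, 581992, 789856, 52240, 1035465, 708332, 706187, 114450, 701698, 147501,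
  1056635, 533442, 419707, 691837, 317995, 158483, 410483, 955129, 187740, 214939, 427723, 1103298,
  725935, 646822, 1106003, 560560, 995012, 627662, 255739, 806718, 684402, 778929, 207310, 1109788,
  838724, 1101795, 981489, 901957, 77274, 1014702, 790388, 162897, 174384, 191534, 76139, 199726,
  1052416, 612041, 518175, 400122, 386010, 468132, 1112121, 746034, 581829, 1049131, 805329, 768847,
  1093600, 24863, 587168, 83676, 635797, 941664, 77189, 300454, 447150, 63309, 806908, 603862]

theorem c15 : eqO (runs [16] L14) L15 = true := by decide +kernel

end Pool.Agent.Lib_helper76.QG
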