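import Pool.Agent.Lib_helper76.QGComp.Base
import Pool.Agent.Lib_helper76.QGComp.C16

set_option autoImplicit false

namespace Pool.Agent.Lib_helper76.QG

def L17 : List Nat := []

theorem c17 : eqO (runs [15, 14, 13, 12, 11, 10, 9, 5, 3, 1] L16) L17 = true := by decide +kernel

end Pool.Agent.Lib_helper76.QG
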