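import Pool.Agent.Lib_helper76.QGComp.Base
import Pool.Agent.Lib_helper76.QGComp.C4

set_option autoImplicit false

namespace Pool.Agent.Lib_helper76.QG

def L5 : List Nat := [739487, 374156, 113349, 938722, 820416, 535041, 578559, 713162, 441445, 194848, 1027822, 342494,
  402202, 893231, 947720, 156850, 93471, 536726, 980110, 81929, 98765, 1089961, 633169, 193513,
  913581, 360808, 1061782, 1041008, 318898, 552302, 176515, 576183, 303183, 996963, 677689, 224343,
  1071752, 1080719, 420095, 138692, 501065, 1060785, 800575, 983038, 342372, 970099, 1041561, 474334,
  952459, 359693, 20960, 372779, 366860, 234717, 684353, 1029344, 669814, 906233, 373174, 508021,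
  36755, 754166, 914494, 891585, 93809, 713737, 729411, 30632, 1015162, 924830, 425979, 806898,
  37277, 1086967, 332521, 892332, 295651, 153421, 790439, 836659, 625605, 1038979, 1019194, 502061,
  885060, 549617, 993222, 363494, 900507, 492349, 202058, 665891, 666955, 387474, 515601, 846419,
  387817, 751465, 599589, 99571, 101177, 656359, 924686, 595606, 793221, 666247, 428937, 638638,
  725222, 114165, 29004, 403681, 752018, 580671, 829744, 119031, 222517, 701366, 728991, 712662,
  621925, 729563, 995184, 202351, 220212, 348235, 253336, 952426, 833544, 177082, 760102, 432299,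
  535073, 914939, 417531, 601777, 821886, 1610, 854681, 511048, 1069098, 224632, 464138, 304584,
  338648, 109443, 295448, 880154, 1001533, 1073971, 411014, 744992, 1055159, 993819, 126957, 62254,
  752356, 654310, 215942, 347564, 123762, 848410, 5610, 1024521, 606224, 1055271, 540393, 162815,
  155336, 865217, 595426, 303735, 71127, 1065252, 23937, 539774, 600388, 164571, 1018951, 200161,
  309415, 511050, 1103346, 603108, 441977, 395699, 13544, 841937, 79266, 271716, 964620, 135766,
  333769, 140090, 244078, 1097433, 301126, 121345, 813953, 263606, 19088, 644749, 184044, 93141,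
  332911, 401756, 306951, 866877, 177494, 228651, 639709, 282832, 985341, 189211, 242003, 754950,
  1102470, 582544, 750358, 448651, 350847, 405899, 335524, 870341, 58281, 90400, 587566, 815448,
  700112, 625422, 887400, 199749, 447712, 1022539, 877695, 360649, 346405, 785565, 636009, 887652,
  705343, 16405, 524716, 968067, 1071843, 901099, 876402, 1060371, 491612, 591813, 483589, 862453,
  90583, 435513, 243331, 1030695, 979994, 500108, 336723, 677619, 302060, 670217, 673358, 693943,
  780963, 844745, 199889, 659465, 1045152, 480419, 357636, 243641, 668520, 144448, 825776, 602636,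
  805466, 846658, 792508, 246469, 865635, 549344, 768395, 91304, 32671, 150413, 422208, 961335,
  973724, 515962, 408938, 748483, 1054237, 581992, 789856, 52240, 1035465, 708332, 706187, 114450,
  701698, 147501, 1056635, 533442, 419707, 691837, 317995, 158483, 410483, 955129, 187740, 214939,
  427723, 1103298, 725935, 646822, 1106003, 560560, 995012, 627662, 255739, 806718, 684402, 778929,
  207310, 1109788, 838724, 1101795, 981489, 901957, 77274, 1014702, 790388, 162897, 174384, 191534,
  76139, 199726, 1052416, 612041, 518175, 400122, 386010, 468132, 1112121, 746034, 581829, 1049131,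
  805329, 768847, 1093600, 24863, 587168, 83676, 635797, 941664, 77189, 300454, 447150, 63309,
  806908, 603862]

theorem c5 : eqO (runs [16] L4) L5 = true := by decide +kernel

end Pool.Agent.Lib_helper76.QG
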